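import Pool.Agent.Lib.CR.All

/-!
Elliptic curves over `ℚ` with full rational 2-torsion ordered by the conductor: all curves, and the
curves of rank zero, both have counting function of exact order `X ^ (2 / 3)`.
-/

namespace Pool.Agent.Results.MP_6073f3_nt.RankZeroConductor

/-- The curve `y ^ 2 = x ^ 3 + A x + B` over `ℚ`, for `c = (A, B)`. -/
abbrev curve (c : ℤ × ℤ) : WeierstrassCurve.Affine ℚ := ⟨0, 0, 0, c.1, c.2⟩

/-- The reduced models `(A, B)`, one for each isomorphism class, whose group of rational points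
contains a subgroup isomorphic to `ZMod 2 × ZMod 2`. -/
def Full2 (c : ℤ × ℤ) : Prop :=
  4 * c.1 ^ 3 + 27 * c.2 ^ 2 ≠ 0 ∧
    (∀ p : ℕ, p.Prime → ¬ ((p : ℤ) ^ 4 ∣ c.1 ∧ (p : ℤ) ^ 6 ∣ c.2)) ∧
    ∃ f : ZMod 2 × ZMod 2 →+ (curve c).Point, Function.Injective f

/-- The prime-to-6 part of the conductor: a prime `p ≥ 5` of bad reduction has exponent two if
`p ∣ A` (cusp) and exponent one otherwise (node). -/
def cond (c : ℤ × ℤ) : ℕ :=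
  ∏ p ∈ (4 * c.1 ^ 3 + 27 * c.2 ^ 2).natAbs.primeFactors.filter (fun p : ℕ => 5 ≤ p),
    p ^ (if ((p : ℕ) : ℤ) ∣ c.1 then 2 else 1)

theorem result (K : ℕ) : ∃ c₁ c₂ : ℝ, 0 < c₁ ∧ ∃ X₀ : ℕ, ∀ N : ℤ × ℤ → ℕ,
    (∀ c, Full2 c → cond c ≤ N c ∧ N c ≤ K * cond c) →
    (∀ X : ℕ, {c | Full2 c ∧ N c ≤ X}.Finite) ∧ ∀ X ≥ X₀,
      c₁ * (X : ℝ) ^ (2 / 3 : ℝ) ≤ {c | Full2 c ∧ N c ≤ X ∧ Finite (curve c).Point}.ncard ∧
      ({c | Full2 c ∧ N c ≤ X}.ncard : ℝ) ≤ c₂ * (X : ℝ) ^ (2 / 3 : ℝ) := by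
  obtain ⟨c₁, c₂, δ, h1, h2, X₀, h⟩ :=
    Pool.Agent.Lib.CR.main_of Pool.Agent.Lib.CR.st_PAR Pool.Agent.Lib.CR.up K
  refine ⟨δ * c₁, c₂, mul_pos h2 h1, X₀, fun N hN => ⟨(h N hN).1, fun X hX => ?_⟩⟩
  obtain ⟨a1, a2, a3⟩ := (h N hN).2 X hX
  refine ⟨?_, a2⟩
  rw [mul_assoc]
  refine ((mul_le_mul_of_nonneg_left a1 h2.le).trans a3).trans (le_of_eq ?_)
  exact congrArg (fun s : Set (ℤ × ℤ) => (s.ncard : ℝ)) (Set.ext fun c => and_assoc)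

end Pool.Agent.Results.MP_6073f3_nt.RankZeroConductor
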