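import Pool.Agent.Lib.MP_6073f3_nt.Z.Disc

/-!
A positive proportion of the elliptic curves over `ℚ` with full rational 2-torsion, ordered by
the absolute value of the minimal discriminant, has rank zero.
-/

namespace Pool.Agent.Results.MP_6073f3_nt.RankZeroDisc

/-- The curve `y ^ 2 = x ^ 3 + A x + B` over `ℚ`, for `c = (A, B)`. -/
abbrev curve (c : ℤ × ℤ) : WeierstrassCurve.Affine ℚ := ⟨0, 0, 0, c.1, c.2⟩

/-- The isomorphism classes, each given by its reduced model `(A, B)`, which have an integral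
Weierstrass model of discriminant at most `X` in absolute value and whose group of rational points
contains a subgroup isomorphic to `ZMod 2 × ZMod 2`. -/
def family (X : ℕ) : Set (ℤ × ℤ) :=
  {c | 4 * c.1 ^ 3 + 27 * c.2 ^ 2 ≠ 0 ∧
    (∀ p : ℕ, p.Prime → ¬ ((p : ℤ) ^ 4 ∣ c.1 ∧ (p : ℤ) ^ 6 ∣ c.2)) ∧
    (∃ (V : WeierstrassCurve ℤ) (C : WeierstrassCurve.VariableChange ℚ),
      C • (curve c : WeierstrassCurve ℚ) = V.map (Int.castRingHom ℚ) ∧ |V.Δ| ≤ (X : ℤ)) ∧
    ∃ f : ZMod 2 × ZMod 2 →+ (curve c).Point, Function.Injective f}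

theorem result : (∀ X : ℕ, (family X).Finite) ∧
    Filter.Tendsto (fun X => (family X).ncard) Filter.atTop Filter.atTop ∧
    ∃ δ : ℝ, 0 < δ ∧ ∃ X₀ : ℕ, ∀ X ≥ X₀,
      δ * (family X).ncard ≤ {c ∈ family X | Finite (curve c).Point}.ncard :=
  ⟨Pool.Agent.Lib.RankZero.famD_finite, Pool.Agent.Lib.RankZero.famD_tendsto,
    Pool.Agent.Lib.RankZero.rank_zero_disc⟩

end Pool.Agent.Results.MP_6073f3_nt.RankZeroDisc
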