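import Pool.Agent.Lib.MP_6073f3_nt.Z.Final

/-!
A positive proportion of the elliptic curves over `ℚ` with full rational 2-torsion, ordered by
naive height, has rank zero.
-/

namespace Pool.Agent.Results.MP_6073f3_nt.RankZeroFull2

/-- The curve `y ^ 2 = x ^ 3 + A x + B` over `ℚ`, for `c = (A, B)`. -/
abbrev curve (c : ℤ × ℤ) : WeierstrassCurve.Affine ℚ := ⟨0, 0, 0, c.1, c.2⟩

/-- The minimal models `(A, B)` of naive height at most `X` whose group of rational points contains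
a subgroup isomorphic to `ZMod 2 × ZMod 2`. -/
def family (X : ℕ) : Set (ℤ × ℤ) :=
  {c | 4 * c.1 ^ 3 + 27 * c.2 ^ 2 ≠ 0 ∧
    (∀ p : ℕ, p.Prime → ¬ ((p : ℤ) ^ 4 ∣ c.1 ∧ (p : ℤ) ^ 6 ∣ c.2)) ∧
    max (4 * |c.1| ^ 3) (27 * c.2 ^ 2) ≤ (X : ℤ) ∧
    ∃ f : ZMod 2 × ZMod 2 →+ (curve c).Point, Function.Injective f}

theorem result : (∀ X : ℕ, (family X).Finite) ∧
    Filter.Tendsto (fun X => (family X).ncard) Filter.atTop Filter.atTop ∧
    ∃ δ : ℝ, 0 < δ ∧ ∃ X₀ : ℕ, ∀ X ≥ X₀,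
      δ * (family X).ncard ≤ {c ∈ family X | Finite (curve c).Point}.ncard :=
  ⟨Pool.Agent.Lib.TorsRank.famS_finite 2 2, Pool.Agent.Lib.TorsRank.P22.main.choose_spec.2,
    Pool.Agent.Lib.RankZero.rank_zero_pos⟩

end Pool.Agent.Results.MP_6073f3_nt.RankZeroFull2
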