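import Pool.Agent.Lib.MP_6073f3_nt.Fam2

/-!
Bounded average rank, in the naive height ordering, for seven families of elliptic curves over `ℚ`
with prescribed rational torsion.
-/

namespace Pool.Agent.Results.MP_6073f3_nt.TorsionAvgRank

/-- The curve `y ^ 2 = x ^ 3 + A x + B` over `ℚ`, for `c = (A, B)`. -/
abbrev curve (c : ℤ × ℤ) : WeierstrassCurve.Affine ℚ := ⟨0, 0, 0, c.1, c.2⟩

/-- The minimal models `(A, B)` of naive height at most `X` whose group of rational points contains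
a subgroup isomorphic to `ZMod m × ZMod n`. -/
def family (m n X : ℕ) : Set (ℤ × ℤ) :=
  {c | 4 * c.1 ^ 3 + 27 * c.2 ^ 2 ≠ 0 ∧
    (∀ p : ℕ, p.Prime → ¬ ((p : ℤ) ^ 4 ∣ c.1 ∧ (p : ℤ) ^ 6 ∣ c.2)) ∧
    max (4 * |c.1| ^ 3) (27 * c.2 ^ 2) ≤ (X : ℤ) ∧
    ∃ f : ZMod m × ZMod n →+ (curve c).Point, Function.Injective f}

theorem result : ∀ G ∈ [(1, 4), (1, 8), (1, 12), (2, 2), (2, 4), (2, 6), (2, 8)], ∃ C : ℕ,
    (∀ X : ℕ, (family G.1 G.2 X).Finite ∧
      (∀ c ∈ family G.1 G.2 X, Module.Finite ℤ (curve c).Point) ∧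
      ∑ᶠ c ∈ family G.1 G.2 X, Module.finrank ℤ (curve c).Point ≤ C * (family G.1 G.2 X).ncard) ∧
    Filter.Tendsto (fun X => (family G.1 G.2 X).ncard) Filter.atTop Filter.atTop := by
  open Pool.Agent.Lib.TorsRank in
  have key : ∀ {m n : ℕ}, Par m n → ∃ C : ℕ, (∀ X : ℕ, (family m n X).Finite ∧
      (∀ c ∈ family m n X, Module.Finite ℤ (curve c).Point) ∧
      ∑ᶠ c ∈ family m n X, Module.finrank ℤ (curve c).Point ≤ C * (family m n X).ncard) ∧
      Filter.Tendsto (fun X => (family m n X).ncard) Filter.atTop Filter.atTop := fun P =>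
    let ⟨C, h1, h2⟩ := P.main
    ⟨C, fun X => ⟨famS_finite _ _ X, h1 X⟩, h2⟩
  open Pool.Agent.Lib.TorsRank in
  simp only [List.forall_mem_cons, List.not_mem_nil, false_imp_iff, implies_true, and_true]
  open Pool.Agent.Lib.TorsRank in
  exact ⟨key P4, key P8, key P12, key P22, key P24, key P26, key P28⟩

end Pool.Agent.Results.MP_6073f3_nt.TorsionAvgRank
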